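import Pool.Agent.H181R3.VP.Main

/-!
The permanent on coordinate slices of density more than one half is as hard as the permanent.
-/

set_option autoImplicit false

namespace Pool.Agent.Results.MP_499dc6_lc.DenseSlices

open Finset MvPolynomial Pool.Agent.H181R3.VP


lemma gen_eq (n : ℕ) : Pool.Agent.H181R3.VP.slice (univ : Finset (Fin n × Fin n)) 0 = gen n := by
  ext i j : 2
  simp [Pool.Agent.H181R3.VP.slice, gen]

lemma small {n : ℕ} {ε : ℝ} (hn : 0 < n) (S : Finset (Fin n × Fin n))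
    (hS : (1 / 2 + ε) * (n : ℝ) ^ 2 ≤ (S.card : ℝ)) : ε ≤ 1 / 2 := by
  have h1 : S.card ≤ n * n := by
    calc S.card ≤ Fintype.card (Fin n × Fin n) := card_le_univ _
      _ = n * n := by simp
  have h2 : (S.card : ℝ) ≤ n * n := by exact_mod_cast h1
  have h3 : (0 : ℝ) < (n : ℝ) ^ 2 := by positivity
  have h4 : (1 / 2 + ε) * (n : ℝ) ^ 2 ≤ 1 * (n : ℝ) ^ 2 := by nlinarith
  have h5 := le_of_mul_le_mul_right h4 h3
  linarith

theorem quant (ε : ℝ) (hε : 0 < ε) (n m s : ℕ) (h1 : m ^ 4 ≤ n) (h2 : (m : ℝ) + 1 ≤ ε ^ 4 * n)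
    (S : Finset (Fin n × Fin n)) (hS : (1 / 2 + ε) * (n : ℝ) ^ 2 ≤ (S.card : ℝ))
    (hPM : ∃ τ : Equiv.Perm (Fin n), ∀ i, (τ i, i) ∈ S) (A : Matrix (Fin n) (Fin n) ℂ)
    (h : Computes s (Pool.Agent.H181R3.VP.slice S A).permanent) :
    ∃ s' ≤ (n + 1) * (s + (n * n + 1) + 3) + 1, Computes s' (gen m).permanent := by
  have hn : 0 < n := by
    rcases Nat.eq_zero_or_pos n with h0 | h0
    · rw [h0] at h2
      simp at h2
      have : (0 : ℝ) ≤ m := Nat.cast_nonneg m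
      linarith
    · exact h0
  have h3 := small hn S hS
  have h4 : 1 ≤ ε * n := by
    have h5 : ε ^ 4 ≤ ε := by
      calc ε ^ 4 = ε * ε ^ 3 := by ring
        _ ≤ ε * 1 := by
            refine mul_le_mul_of_nonneg_left ?_ hε.le
            exact pow_le_one₀ hε.le (by linarith)
        _ = ε := mul_one _
    have h6 : (0 : ℝ) ≤ m := Nat.cast_nonneg m
    have h7 : (0 : ℝ) ≤ n := Nat.cast_nonneg n
    nlinarith [mul_le_mul_of_nonneg_right h5 h7]
  exact (hard ε hε h1 h2 h4 S hS hPM A h.easy).computes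

lemma easy_prod {n : ℕ} (l : List (Fin n)) :
    Easy (2 * l.length + 1)
      ((l.map fun i => (X (i, i) : MvPolynomial (Fin n × Fin n) ℂ)).prod) := by
  induction l with
  | nil => exact ⟨[1], Slp.cons _ _ Slp.nil (Or.inr (Or.inl ⟨1, by simp⟩)), by simp, by simp⟩
  | cons i l ih =>
    obtain ⟨p, hp, hmem, hlen⟩ := ih
    have h1 : Slp (X (i, i) :: p) := Slp.cons _ _ hp (Or.inl ⟨_, rfl⟩)
    refine ⟨_ :: X (i, i) :: p, Slp.cons _ _ h1 (Or.inr (Or.inr ⟨X (i, i), by simp,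
      (l.map fun i => (X (i, i) : MvPolynomial (Fin n × Fin n) ℂ)).prod, by simp [hmem],
      Or.inr rfl⟩)), ?_, ?_⟩
    · rw [List.map_cons, List.prod_cons]
      simp
    · simp only [List.length_cons]
      omega

theorem sharp (n : ℕ) : ∃ S : Finset (Fin n × Fin n), (n : ℝ) ^ 2 / 2 ≤ (S.card : ℝ) ∧
    (∀ i, (i, i) ∈ S) ∧ ∃ s ≤ 2 * n + 1, Computes s (Pool.Agent.H181R3.VP.slice S 0).permanent := by
  classical
  let S : Finset (Fin n × Fin n) := univ.filter fun p => p.1 ≤ p.2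
  let S' : Finset (Fin n × Fin n) := univ.filter fun p => p.2 ≤ p.1
  refine ⟨S, ?_, fun i => by simp [S], ?_⟩
  · have h1 : S.card = S'.card := by
      refine card_bij (fun p _ => (p.2, p.1)) ?_ ?_ ?_
      · intro p hp
        simpa [S, S'] using hp
      · rintro ⟨a, b⟩ _ ⟨c, d⟩ _ h
        simp at h
        simp [h]
      · rintro ⟨a, b⟩ hp
        exact ⟨(b, a), by simpa [S, S'] using hp, rfl⟩
    have h2 : S ∪ S' = univ := by
      ext p
      simp only [S, S', mem_union, mem_filter, mem_univ, true_and, iff_true]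
      exact le_total _ _
    have h3 : n * n ≤ S.card + S'.card := by
      calc n * n = (univ : Finset (Fin n × Fin n)).card := by simp
        _ = (S ∪ S').card := by rw [h2]
        _ ≤ _ := card_union_le _ _
    have h4 : n * n ≤ 2 * S.card := by omega
    have h5 : (n : ℝ) * n ≤ 2 * S.card := by exact_mod_cast h4
    rw [sq]
    linarith
  · have h1 : (Pool.Agent.H181R3.VP.slice S 0).permanent = ((List.finRange n).map fun i => X (i, i)).prod := by
      have h2 : ∀ σ : Equiv.Perm (Fin n), σ ≠ 1 →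
          ∏ i, Pool.Agent.H181R3.VP.slice S 0 (σ i) i = (0 : MvPolynomial (Fin n × Fin n) ℂ) := by
        intro σ hσ
        have h3 : ∃ i, i < σ i := by
          by_contra h4
          push Not at h4
          apply hσ
          have h5 : (∑ i : Fin n, (σ i).val) = ∑ i : Fin n, i.val :=
            Equiv.sum_comp σ (fun i : Fin n => i.val)
          have h6 : ∀ i ∈ (univ : Finset (Fin n)), (σ i).val = i.val :=
            (Finset.sum_eq_sum_iff_of_le (fun i _ => Fin.le_def.mp (h4 i))).mp h5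
          ext i
          simpa using h6 i (mem_univ i)
        obtain ⟨i, hi⟩ := h3
        refine prod_eq_zero (mem_univ i) ?_
        have : (σ i, i) ∉ S := by simpa [S] using hi
        simp [Pool.Agent.H181R3.VP.slice, this]
      rw [Matrix.permanent, sum_eq_single 1 (fun σ _ hσ => h2 σ hσ) (by simp)]
      rw [← List.ofFn_eq_map, List.prod_ofFn]
      refine prod_congr rfl fun i _ => ?_
      simp [Pool.Agent.H181R3.VP.slice, S]
    rw [h1]
    have h2 := (easy_prod (List.finRange n)).computes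
    simpa using h2

/-- **Main result.** -/
theorem result :
    -- quantitative form
    (∀ ε : ℝ, 0 < ε → ∀ n m s : ℕ, m ^ 4 ≤ n → (m : ℝ) + 1 ≤ ε ^ 4 * n →
      ∀ S : Finset (Fin n × Fin n), (1 / 2 + ε) * (n : ℝ) ^ 2 ≤ (S.card : ℝ) →
      (∃ τ : Equiv.Perm (Fin n), ∀ i, (τ i, i) ∈ S) → ∀ A : Matrix (Fin n) (Fin n) ℂ,
      Computes s (Pool.Agent.H181R3.VP.slice S A).permanent →
      ∃ s' ≤ (n + 1) * (s + (n * n + 1) + 3) + 1, Computes s' (gen m).permanent) ∧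
    -- the criterion for the permanent
    (∀ ε : ℝ, 0 < ε → ε ≤ 1 / 2 →
      ((∃ c : ℕ, ∀ m : ℕ, ∃ s ≤ m ^ c + c, Computes s (gen m).permanent) ↔
        ∃ c : ℕ, ∀ n : ℕ, ∃ (S : Finset (Fin n × Fin n)) (A : Matrix (Fin n) (Fin n) ℂ),
          (1 / 2 + ε) * (n : ℝ) ^ 2 ≤ (S.card : ℝ) ∧
          (∃ τ : Equiv.Perm (Fin n), ∀ i, (τ i, i) ∈ S) ∧
          ∃ s ≤ n ^ c + c, Computes s (Pool.Agent.H181R3.VP.slice S A).permanent)) ∧
    -- density one half is not enough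
    (∀ n : ℕ, ∃ S : Finset (Fin n × Fin n), (n : ℝ) ^ 2 / 2 ≤ (S.card : ℝ) ∧
      (∀ i, (i, i) ∈ S) ∧ ∃ s ≤ 2 * n + 1, Computes s (Pool.Agent.H181R3.VP.slice S 0).permanent) := by
  refine ⟨quant, fun ε hε hε2 => ⟨?_, ?_⟩, sharp⟩
  · rintro ⟨c, hc⟩
    refine ⟨c, fun n => ⟨univ, 0, ?_, ⟨1, fun i => mem_univ _⟩, ?_⟩⟩
    · have h1 : ((univ : Finset (Fin n × Fin n)).card : ℝ) = (n : ℝ) ^ 2 := by
        simp [sq]
      rw [h1]
      nlinarith [sq_nonneg (n : ℝ)]
    · rw [gen_eq]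
      exact hc n
  · rintro ⟨c, hc⟩
    obtain ⟨K, hK⟩ := exists_nat_ge (2 / ε ^ 4)
    obtain ⟨c', hc'⟩ := poly_bound K c
    refine ⟨c', fun m => ?_⟩
    obtain ⟨S, A, hS, hPM, s, hs, hcomp⟩ := hc (K * (m ^ 4 + 1))
    have hε4 : 0 < ε ^ 4 := by positivity
    have hK2 : 2 ≤ ε ^ 4 * K := by
      rw [div_le_iff₀ hε4] at hK
      linarith
    have hK1 : 1 ≤ K := by
      rcases Nat.eq_zero_or_pos K with h | h
      · rw [h] at hK2
        norm_num at hK2
      · exact h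
    have h1 : m ^ 4 ≤ K * (m ^ 4 + 1) :=
      calc m ^ 4 ≤ 1 * (m ^ 4 + 1) := by omega
        _ ≤ K * (m ^ 4 + 1) := Nat.mul_le_mul_right _ hK1
    have hm4 : m ≤ m ^ 4 := Nat.le_self_pow (by norm_num) m
    have h2 : (m : ℝ) + 1 ≤ ε ^ 4 * ((K * (m ^ 4 + 1) : ℕ) : ℝ) := by
      have e1 : (m : ℝ) ≤ (m : ℝ) ^ 4 := by exact_mod_cast hm4
      push_cast
      have e2 : (0 : ℝ) ≤ (m : ℝ) ^ 4 := by positivity
      nlinarith
    obtain ⟨s', hs', hcomp'⟩ := quant ε hε _ m s h1 h2 S hS hPM A hcomp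
    refine ⟨s', hs'.trans (le_trans ?_ (hc' m)), hcomp'⟩
    gcongr

end Pool.Agent.Results.MP_499dc6_lc.DenseSlices
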