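import Pool.Agent.H176R4.MT.Sharp

/-!
# The products of a circuit for the permanent, counted by rows and columns

Jerrum and Snir showed that monotone circuits for the `n × n` permanent need exactly
`n (2 ^ (n - 1) - 1)` products.  Here all arithmetic circuits, with cancellations, are considered;
their linear combinations are free.  A product `a * b` is counted with the number of pairs of a
type `(S, T)` of `a` and a type `(S', T')` of `b`, where `(S, T)` is a type of a polynomial if a
partial permutation monomial with the rows `S` and the columns `T` occurs in it.  The number of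
these homogeneous products is at least `n (2 ^ (n - 1) - 1)`, and this is sharp.  It follows that
circuits with one generic diagonal symmetry need `n (2 ^ (n - 1) - 1)` products, and that this
number is exact.
-/

set_option autoImplicit false

namespace Pool.Agent.Results.MP_499dc6_lc.OneScaling

open MvPolynomial Finset Pool.Agent.H176R4.MT
open Pool.Agent.H735R2.OneSym (scale Generic)

/-- The `n × n` matrix of variables. -/
noncomputable def mat (K : Type) [CommRing K] (n : ℕ) :
    Matrix (Fin n) (Fin n) (MvPolynomial (Fin n × Fin n) K) :=
  Matrix.of fun i j => X (i, j)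

/-- All `n!` permutation monomials `∏ i, x (i, σ i)` occur in `F`. -/
def Full {K : Type} [CommRing K] {n : ℕ} (F : MvPolynomial (Fin n × Fin n) K) : Prop :=
  ∀ σ : Equiv.Perm (Fin n), coeff (pm σ univ) F ≠ 0

theorem result :
    -- all permutation monomials occur in the permanent and in the determinant
    (∀ (K : Type) [CommRing K] [Nontrivial K] (n : ℕ),
      Full (mat K n).permanent ∧ Full (mat K n).det) ∧
    -- (1) all circuits: the number of homogeneous products
    (∀ (K : Type) [CommRing K] (n : ℕ) (Φ : Circuit K (Fin n × Fin n)) (out : Φ.Gate),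
      Full (Φ.val out) → n * (2 ^ (n - 1) - 1) ≤ Φ.homProducts.ncard) ∧
    -- (2) circuits whose gates are permuted, up to scalars, by one generic diagonal scaling
    (∀ (K : Type) [Field K] (n : ℕ) (Φ : Circuit K (Fin n × Fin n)) (out : Φ.Gate),
      Full (Φ.val out) → ∀ s t : Fin n → Kˣ, Generic' s t → Φ.Symm s t →
      n * (2 ^ (n - 1) - 1) ≤ Φ.products) ∧
    -- (3) circuits such that the span of the gates is stable under one generic diagonal scaling
    (∀ (K : Type) [Field K] (n : ℕ) (Φ : Circuit K (Fin n × Fin n)) (out : Φ.Gate),
      Full (Φ.val out) → ∀ s t : Fin n → Kˣ, Generic s t →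
      (∀ g, scale s t (Φ.val g) ∈ Φ.space) →
      n * (2 ^ (n - 1) - 1) ≤ Φ.products * Module.finrank K Φ.space ^ 2) ∧
    -- (4) the bounds (1) and (2) are attained by a circuit for the permanent
    (∀ (K : Type) [Field K] (n : ℕ), ∃ (Φ : Circuit K (Fin n × Fin n)) (out : Φ.Gate),
      Φ.val out = (mat K n).permanent ∧
      Φ.products = n * (2 ^ (n - 1) - 1) ∧ Φ.homProducts.ncard = n * (2 ^ (n - 1) - 1) ∧
      ∀ (s t : Fin n → Kˣ) (g : Φ.Gate), ∃ c : K, scale s t (Φ.val g) = C c * Φ.val g) ∧
    -- (5) generic scalings which preserve the permanent exist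
    (∀ n : ℕ, ∃ s t : Fin n → ℂˣ, Generic' s t ∧ (∏ i, s i) * ∏ j, t j = 1) := by
  have hper : ∀ (K : Type) [CommRing K] [Nontrivial K] (n : ℕ),
      Full (mat K n).permanent := by
    intro K _ _ n σ
    have h := coeff_permanent K n σ
    unfold mat
    rw [h]
    exact one_ne_zero
  refine ⟨fun K _ _ n => ⟨hper K n, ?_⟩, fun K _ n Φ out h => homProducts_bound Φ out h,
    fun K _ n Φ out h s t hg hs => symm_bound Φ out h s t hs hg,
    fun K _ n Φ out h s t hg hs => span_bound Φ out h s t hs hg, ?_, exists_generic'⟩
  · intro σ
    have h := coeff_det K n σ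
    unfold mat
    rw [h]
    rcases Int.units_eq_one_or (Equiv.Perm.sign σ) with h1 | h1
    · rw [h1]; simp
    · rw [h1]; simp
  · intro K _ n
    refine ⟨laplace K n, .inr (.inl univ), laplace_out K n, laplace_products K n, ?_,
      fun s t g => laplace_scale s t g⟩
    apply le_antisymm (laplace_homProducts_le K n)
    apply homProducts_bound (laplace K n) (.inr (.inl univ))
    intro σ
    rw [laplace_out]
    exact hper K n σ

end Pool.Agent.Results.MP_499dc6_lc.OneScaling
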