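import Pool.Agent.H53R4.Circ

set_option autoImplicit false

/-!
# The permanent on affine subspaces of small codimension

Definitions: `genY` is in `Pool.Agent.H53R4.Restr`, `HasCircuit` in `Pool.Agent.H53R4.Circ`.
-/

namespace Pool.Agent.Results.MP_499dc6_lc.PermanentOnSubspaces

open Module MvPolynomial Pool.Agent.H53R4

/-- (1) Over every field `K`, the `q × q` permanent (`q ≥ 1`) is an affine-linear restriction of the
`n × n` permanent on every affine subspace `A₀ + V` of codimension at most `n - q`: there are
polynomials `M i j` of degree at most `1` in `q²` variables such that `M(y)` is in `A₀ + V` for all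
`y` and `per M` is the generic `q × q` permanent.
(2) Hence, over an infinite field, the permanents have circuits of polynomial size if and only if
there are constants `c, e` such that for every `m ≥ 1` there are `n ≤ m ^ e + e`, an affine subspace
of codimension at most `n - m` of the `n × n` matrices and a circuit of size at most `m ^ c + c`
whose result agrees with the permanent on this subspace.
(3) The bound on the codimension is sharp: there are subspaces of codimension `n` on which the
permanent is zero. -/
theorem result :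
    (∀ (K : Type) [Field K] (n q : ℕ) (A₀ : Matrix (Fin n) (Fin n) K)
      (V : Submodule K (Matrix (Fin n) (Fin n) K)), 1 ≤ q → n ^ 2 + q ≤ finrank K V + n →
      ∃ M : Matrix (Fin n) (Fin n) (MvPolynomial (Fin q × Fin q) K),
        (∀ i j, (M i j).totalDegree ≤ 1) ∧ (∀ y, M.map (eval y) - A₀ ∈ V) ∧
        M.permanent = (genY K q).permanent) ∧
    (∀ (K : Type) [Field K] [Infinite K],
      (∃ c : ℕ, ∀ m : ℕ, HasCircuit (m ^ c + c) fun f => f = (genY K m).permanent) ↔
      (∃ c e : ℕ, ∀ m : ℕ, 1 ≤ m → ∃ n : ℕ, n ≤ m ^ e + e ∧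
        ∃ (A₀ : Matrix (Fin n) (Fin n) K) (V : Submodule K (Matrix (Fin n) (Fin n) K)),
          n ^ 2 + m ≤ finrank K V + n ∧
          HasCircuit (m ^ c + c) fun f : MvPolynomial (Fin n × Fin n) K =>
            ∀ Z : Matrix (Fin n) (Fin n) K, Z - A₀ ∈ V →
              eval (fun e => Z e.1 e.2) f = Z.permanent)) ∧
    (∀ (K : Type) [Field K] (n : ℕ), 1 ≤ n →
      ∃ V : Submodule K (Matrix (Fin n) (Fin n) K), n ^ 2 ≤ finrank K V + n ∧
        ∀ Z ∈ V, Z.permanent = 0) :=
  ⟨fun _ _ _ _ A₀ V hq hdim => by
      obtain ⟨ψ, F, hψ, hperm⟩ := perm_restriction hq A₀ V hdim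
      exact ⟨restr A₀ ψ F, fun i j => restr_degree A₀ ψ F i j, fun y => restr_mem A₀ ψ hψ F y,
        hperm⟩,
    fun K _ _ => vp_iff K, fun K _ n hn => exists_zero_subspace K n hn⟩

end Pool.Agent.Results.MP_499dc6_lc.PermanentOnSubspaces
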