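import Mathlib
import Pool.Agent.H505R3.PRE.Main
import Pool.Agent.H505R3.PRE.Horner

set_option autoImplicit false

/-!
# Permanent and determinant after precomputation

Let `T` be a set of positions of an `m × m` matrix of variables over a field `K`. We count the
operations `+, -, *, /` of straight-line programs that compute a polynomial in the matrix entries,
when every rational function of the entries outside `T` is available at no cost.

For `2 r` positions in distinct rows and columns the determinant needs `O(r ^ 3)` operations,
whereas the permanent needs between `4 ^ r` and `2 * 4 ^ r - 2` operations (if `2 ^ r + 2 r ≤ m`).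
-/

namespace Pool.Agent.Results.MP_499dc6_lc.PrecomputationGap

open MvPolynomial Pool.Agent.H505R3.PRE

/-- The polynomial `f` can be computed with at most `n` operations `+, -, *, /` from the variables
in `T` and from rational functions in the variables outside `T`, which are all free. -/
def CostAtMost {K σ : Type} [Field K] (T : Set σ) (n : ℕ) (f : MvPolynomial σ K) : Prop :=
  ∃ k ≤ n, ∃ A : Set (FractionRing (MvPolynomial σ K)), Program (Avail K T) k A ∧
    algebraMap (MvPolynomial σ K) (FractionRing (MvPolynomial σ K)) f ∈ A

/-- The `m × m` matrix of variables. -/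
noncomputable def generic (K : Type) [Field K] (m : ℕ) :
    Matrix (Fin m) (Fin m) (MvPolynomial (Fin m × Fin m) K) :=
  Matrix.of fun i j => X (i, j)

/-- **The permanent against the determinant after precomputation.** Let `K` be a field of
characteristic zero and let `T` be a set of `2 r` positions in distinct rows and distinct columns of
the `m × m` matrix of variables.
(1) If `T' ⊇ T` and everything that does not depend on the variables in `T'` is free, then the
permanent still needs at least `min (2 ^ r) (m - 2 r) ^ 2` operations.
(2) If everything that does not depend on the variables in `T` is free, then `2 * 4 ^ r - 2`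
operations suffice for the permanent, and
(3) `8 r ^ 3 + 4 r ^ 2 + 6 r + 1` operations suffice for the determinant. -/
theorem result (K : Type) [Field K] [CharZero K] (m r : ℕ) (hr : 1 ≤ r) (hm : 2 * r + 2 ≤ m)
    (ρ γ : Fin (2 * r) → Fin m) (hρ : Function.Injective ρ) (hγ : Function.Injective γ)
    (T : Set (Fin m × Fin m)) (hT : T = Set.range fun s => (ρ s, γ s)) :
    (∀ T' : Set (Fin m × Fin m), T ⊆ T' → ∀ n : ℕ,
      CostAtMost T' n (generic K m).permanent → (min (2 ^ r) (m - 2 * r)) ^ 2 ≤ n) ∧
    CostAtMost T (2 * 4 ^ r - 2) (generic K m).permanent ∧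
    CostAtMost T (8 * r ^ 3 + 4 * r ^ 2 + 6 * r + 1) (generic K m).det := by
  classical
  subst hT
  refine ⟨?_, ?_, ?_⟩
  · rintro T' hT' n ⟨k, hk, A, hA, hf⟩
    have h2 : 2 ≤ 2 ^ r := by
      calc 2 = 2 ^ 1 := by norm_num
        _ ≤ 2 ^ r := Nat.pow_le_pow_right (by norm_num) hr
    have := perm_lower (K := K) m r (min (2 ^ r) (m - 2 * r)) (by omega) (min_le_left _ _)
      (by omega) ρ γ hρ hγ T' (fun s => hT' ⟨s, rfl⟩) hA hf
    omega
  · set T0 : Finset (Fin m × Fin m) := Finset.univ.image fun s => (ρ s, γ s) with hT0
    have hcard : T0.card = 2 * r := by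
      rw [hT0, Finset.card_image_of_injective]
      · simp
      · intro a b hab
        exact hρ (congrArg Prod.fst hab)
    have hset : (T0 : Set (Fin m × Fin m)) = Set.range fun s => (ρ s, γ s) := by
      rw [hT0]; simp
    obtain ⟨n, A, hn, hA, hf⟩ := perm_upper K m T0
    rw [hset] at hA
    refine ⟨n, ?_, A, hA, hf⟩
    rw [hcard, pow_mul] at hn
    norm_num at hn
    omega
  · obtain ⟨n, A, hn, hA, hf⟩ := det_upper K m (2 * r) ρ γ hρ hγ
    refine ⟨n, ?_, A, hA, hf⟩
    have e : (2 * r) ^ 3 + (2 * r) ^ 2 + 3 * (2 * r) + 1 = 8 * r ^ 3 + 4 * r ^ 2 + 6 * r + 1 := by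
      ring
    omega

end Pool.Agent.Results.MP_499dc6_lc.PrecomputationGap
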